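import Pool.Agent.Y782.UG.Fin
import Pool.Agent.Y331.UG.OP
import Pool.Agent.Y893.UG.RESV
import Pool.Agent.Y845.UG.Rec
import Pool.Agent.Y331.UG.WALK
import Pool.Agent.Y657.UG.Lim
import Pool.Agent.Y77.UG.RAB
import Pool.Agent.Y77.UG.RCD
import Pool.Agent.Y467.UG.MEAS
import Pool.Agent.Y523.UG.Wei
import Pool.Agent.Y468.UG.Dec
import Pool.Agent.Y523.UG.Law
import Pool.Agent.Y468.UG.Tr
import Pool.Agent.Y467.UG.X2
import Pool.Agent.Y785.UG.U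
import Pool.Agent.Y532.UG.U0
import Pool.Agent.Y331.UG.FS
import Pool.Agent.Y344.UG.Q1
import Pool.Agent.Y77.UG.T1A
import Pool.Agent.Y845.UG.T1I
import Pool.Agent.Y532.UG.T3
import Pool.Agent.Y468.UG.Xi
import Pool.Agent.Y532.UG.T2

set_option autoImplicit false

open MeasureTheory ProbabilityTheory Filter Topology
open scoped ENNReal BigOperators

namespace Pool.Agent.Y782.UG

theorem core_all : S_CORE :=
  core (Pool.Agent.Y468.UG.tr Pool.Agent.Y468.UG.dec) Pool.Agent.Y77.UG.T1A.t1a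
    Pool.Agent.Y845.UG.t1i Pool.Agent.Y532.UG.T2.t2 Pool.Agent.Y532.UG.T3.t3
    Pool.Agent.Y467.UG.x2 (Pool.Agent.Y468.UG.xi Pool.Agent.Y468.UG.dec)
    (Pool.Agent.Y785.UG.u Pool.Agent.Y468.UG.dec) (Pool.Agent.Y532.UG.u0 Pool.Agent.Y468.UG.dec)
    Pool.Agent.Y331.UG.fs Pool.Agent.Y344.UG.q1

theorem main :
  ∀ (P : PMF ℕ), P.support.Finite → P 0 = 0 → P 1 = 0 →
  ∀ (Ω : Type) [MeasureSpace Ω] [IsProbabilityMeasure (volume : Measure Ω)]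
    (N : List ℕ → Ω → ℕ),
    (∀ w, Measurable (N w)) → iIndepFun N (volume : Measure Ω) →
    (∀ k : ℕ, (volume : Measure Ω) {ω | N [] ω = k} = P k) →
    (∀ w : List ℕ, w ≠ [] → ∀ k : ℕ,
      (volume : Measure Ω) {ω | N w ω = k}
        = ((k : ENNReal) + 1) * P (k + 1) / ∑' j : ℕ, (j : ENNReal) * P j) →
    ∀ ν : Measure ℝ, IsProbabilityMeasure ν →
      (∃ R : ℝ, ν (Set.Icc (-R) R)ᶜ = 0) →
      (∀ k : ℕ, ∫ x, x ^ k ∂ν =
        ∫ ω, ((Set.ncard {f : Fin (k + 1) → List ℕ |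
            f 0 = [] ∧ f (Fin.last k) = [] ∧
            (∀ i, ∀ j < (f i).length, (f i).getD j 0 < N ((f i).take j) ω) ∧
            ∀ i : Fin k, (∃ a : ℕ, f i.succ = f i.castSucc ++ [a]) ∨
                         (∃ a : ℕ, f i.castSucc = f i.succ ++ [a])} : ℕ) : ℝ)
          ∂(volume : Measure Ω)) →
      {x : ℝ | ν {x} ≠ 0}.Finite :=
  final (Pool.Agent.Y845.UG.det Pool.Agent.Y331.UG.op Pool.Agent.Y893.UG.resv)
    Pool.Agent.Y331.UG.walk Pool.Agent.Y331.UG.mw Pool.Agent.Y657.UG.l2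
    (Pool.Agent.Y77.UG.AB.ra Pool.Agent.Y657.UG.l1 Pool.Agent.Y657.UG.l2)
    (Pool.Agent.Y77.UG.AB.rb Pool.Agent.Y657.UG.l1 Pool.Agent.Y657.UG.l2 Pool.Agent.Y657.UG.l4)
    (Pool.Agent.Y77.UG.rc Pool.Agent.Y657.UG.l1 Pool.Agent.Y657.UG.l2 Pool.Agent.Y657.UG.l4)
    (Pool.Agent.Y77.UG.rd Pool.Agent.Y657.UG.l1 Pool.Agent.Y657.UG.l2 Pool.Agent.Y657.UG.l3)
    Pool.Agent.Y467.UG.meas Pool.Agent.Y523.UG.wei (Pool.Agent.Y523.UG.law Pool.Agent.Y468.UG.dec)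
    core_all

end Pool.Agent.Y782.UG
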