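import Pool.Agent.Y782.UG.Stm

set_option autoImplicit false

open MeasureTheory ProbabilityTheory Filter Topology
open scoped ENNReal BigOperators

namespace Pool.Agent.Y782.UG

variable {Δ : ℕ}

/-! ## Removing a branch -/

lemma nch_rem (t : Tr Δ) (i : ℕ) : nch (rem t i) = nch t - 1 := rfl

lemma sub_rem (t : Tr Δ) (i j : ℕ) : sub (rem t i) j = sub t (if j < i then j else j + 1) := rfl

lemma sum_rem {M : Type*} [AddCommMonoid M] (t : Tr Δ) {i : ℕ} (hi : i < nch t) (f : Tr Δ → M) :
    ∑ j ∈ Finset.range (nch (rem t i)), f (sub (rem t i) j) + f (sub t i)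
      = ∑ j ∈ Finset.range (nch t), f (sub t j) := by
  have h1 : ∀ (g : ℕ → M) (n i : ℕ), i ≤ n →
      ∑ j ∈ Finset.range n, g (if j < i then j else j + 1) + g i = ∑ j ∈ Finset.range (n + 1), g j := by
    intro g n
    induction n with
    | zero =>
      intro i hi
      have : i = 0 := by omega
      subst this; simp
    | succ n ih =>
      intro i hi
      rcases Nat.lt_or_ge n i with h | h
      · have hin : i = n + 1 := by omega
        subst hin
        rw [Finset.sum_range_succ _ (n + 1)]
        congr 1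
        apply Finset.sum_congr rfl
        intro j hj
        rw [if_pos (Finset.mem_range.mp hj)]
      · rw [Finset.sum_range_succ, if_neg (by omega), add_right_comm, ih i h,
          ← Finset.sum_range_succ]
  have h2 := h1 (fun j => f (sub t j)) (nch t - 1) i (by omega)
  have h3 : nch t - 1 + 1 = nch t := by omega
  rw [h3] at h2
  rw [← h2, nch_rem]
  rfl

lemma forall_rem (t : Tr Δ) {i : ℕ} (hi : i < nch t) (P : Tr Δ → Prop) :
    (∀ j < nch (rem t i), P (sub (rem t i) j)) ↔ ∀ j < nch t, j ≠ i → P (sub t j) := by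
  constructor
  · intro h j hj hji
    rcases Nat.lt_or_ge j i with h1 | h1
    · have := h j (by rw [nch_rem]; omega)
      rw [sub_rem, if_pos h1] at this
      exact this
    · have := h (j - 1) (by rw [nch_rem]; omega)
      rw [sub_rem, if_neg (by omega), Nat.sub_add_cancel (by omega)] at this
      exact this
  · intro h j hj
    rw [nch_rem] at hj
    rw [sub_rem]
    split_ifs with h1
    · exact h j (by omega) (by omega)
    · exact h (j + 1) (by omega) (by omega)

/-! ## Measurability -/

lemma measurable_sub (i : ℕ) : Measurable (fun t : Tr Δ => sub t i) :=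
  measurable_pi_iff.mpr (fun w => measurable_pi_apply (i :: w))

lemma measurable_rem (i : ℕ) : Measurable (fun t : Tr Δ => rem t i) := by
  refine measurable_pi_iff.mpr (fun w => ?_)
  cases w with
  | nil =>
    have : Measurable (fun k : Fin (Δ + 1) =>
      (⟨(k : ℕ) - 1, lt_of_le_of_lt (Nat.sub_le _ _) k.isLt⟩ : Fin (Δ + 1))) := measurable_from_top
    exact this.comp (measurable_pi_apply [])
  | cons a w => exact measurable_pi_apply _

lemma measurable_nch : Measurable (fun t : Tr Δ => nch t) := by
  have : Measurable (fun k : Fin (Δ + 1) => (k : ℕ)) := measurable_from_top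
  exact this.comp (measurable_pi_apply [])

lemma nch_le (t : Tr Δ) : nch t ≤ Δ := Nat.lt_succ_iff.mp (t []).isLt

lemma sum_range_nch {M : Type*} [AddCommMonoid M] (t : Tr Δ) (f : ℕ → M) :
    ∑ i ∈ Finset.range (nch t), f i = ∑ i ∈ Finset.range (Δ + 1), if i < nch t then f i else 0 := by
  rw [← Finset.sum_filter]
  congr 1
  ext i
  have := nch_le t
  simp only [Finset.mem_range, Finset.mem_filter]
  omega

lemma measurableSet_lt_nch (i : ℕ) : MeasurableSet {t : Tr Δ | i < nch t} :=
  measurableSet_lt measurable_const measurable_nch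

lemma measurable_sum_nch {M : Type*} [AddCommMonoid M] [MeasurableSpace M] [MeasurableAdd₂ M]
    {f : ℕ → Tr Δ → M} (hf : ∀ i, Measurable (f i)) :
    Measurable (fun t : Tr Δ => ∑ i ∈ Finset.range (nch t), f i t) := by
  simp_rw [sum_range_nch]
  refine Finset.measurable_sum _ (fun i _ => ?_)
  exact Measurable.ite (measurableSet_lt_nch i) (hf i) measurable_const

lemma measurable_sum_sub {M : Type*} [AddCommMonoid M] [MeasurableSpace M] [MeasurableAdd₂ M]
    {f : Tr Δ → M} (hf : Measurable f) :
    Measurable (fun t : Tr Δ => ∑ i ∈ Finset.range (nch t), f (sub t i)) :=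
  measurable_sum_nch (fun i => hf.comp (measurable_sub i))

lemma measurableSet_all {P : Set (Tr Δ)} (hP : MeasurableSet P) :
    MeasurableSet {t : Tr Δ | ∀ i < nch t, sub t i ∈ P} := by
  have : {t : Tr Δ | ∀ i < nch t, sub t i ∈ P} = ⋂ i : ℕ, ({t : Tr Δ | i < nch t}ᶜ ∪ {t | sub t i ∈ P}) := by
    ext t
    simp only [Set.mem_ofPred_eq, Set.mem_iInter, Set.mem_union, Set.mem_compl_iff]
    exact forall_congr' (fun i => by tauto)
  rw [this]
  exact MeasurableSet.iInter (fun i => (measurableSet_lt_nch i).compl.union (measurable_sub i hP))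

lemma measurableSet_ex {P : Set (Tr Δ)} (hP : MeasurableSet P) :
    MeasurableSet {t : Tr Δ | ∃ i < nch t, sub t i ∈ P} := by
  have : {t : Tr Δ | ∃ i < nch t, sub t i ∈ P} = ({t : Tr Δ | ∀ i < nch t, sub t i ∈ Pᶜ})ᶜ := by
    ext t; simp
  rw [this]
  exact (measurableSet_all hP.compl).compl

lemma measurableSet_Bk {lam : ℝ} {r : Tr Δ → ℝ} {F : Set (Tr Δ)} (hr : Measurable r)
    (hF : MeasurableSet F) : MeasurableSet (Bk lam r F) := by
  refine (measurableSet_all hF).inter ?_
  exact ((measurable_const.add (measurable_sum_sub hr)) (measurableSet_singleton (0 : ℝ)))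

lemma measurableSet_Ed {r : Tr Δ → ℝ} (hr : Measurable r) :
    MeasurableSet {x : Tr Δ × Tr Δ | Ed r x.1 x.2} := by
  unfold Ed
  have h1 : Measurable (fun x : Tr Δ × Tr Δ => r x.1) := hr.comp measurable_fst
  have h2 : Measurable (fun x : Tr Δ × Tr Δ => r x.2) := hr.comp measurable_snd
  exact ((h1 (measurableSet_singleton (0 : ℝ))).compl).inter
    (((h2 (measurableSet_singleton (0 : ℝ))).compl).inter
      ((h1.mul h2) (measurableSet_singleton (1 : ℝ))))

lemma dg_eq (r : Tr Δ → ℝ) (t : Tr Δ) {M : Type*} [AddCommMonoidWithOne M] :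
    ((dg r t : ℕ) : M) = ∑ i ∈ Finset.range (nch t), (Set.indicator {u | r u ≠ 0} (fun _ => (1 : M)) (sub t i)) := by
  classical
  unfold dg
  rw [Finset.card_filter, Nat.cast_sum]
  refine Finset.sum_congr rfl (fun i _ => ?_)
  by_cases h : r (sub t i) ≠ 0
  · simp [h]
  · push Not at h; simp [h]

lemma measurable_dg {r : Tr Δ → ℝ} (hr : Measurable r) :
    Measurable (fun t : Tr Δ => (dg r t : ℝ≥0∞)) := by
  simp_rw [dg_eq (M := ℝ≥0∞)]
  refine measurable_sum_sub (f := Set.indicator {u | r u ≠ 0} (fun _ => (1 : ℝ≥0∞))) ?_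
  exact measurable_const.indicator (hr (measurableSet_singleton (0 : ℝ))).compl

lemma measurable_sz {r : Tr Δ → ℝ} (hr : Measurable r) (n : ℕ) :
    Measurable (fun t : Tr Δ => sz r n t) := by
  classical
  induction n with
  | zero => exact measurable_const
  | succ n ih =>
    have h1 : Measurable (fun t : Tr Δ => ∑ i ∈ Finset.range (nch t),
        (fun u => if r u ≠ 0 then sz r n u else 0) (sub t i)) := by
      refine measurable_sum_sub (M := ℕ∞) (f := fun u => if r u ≠ 0 then sz r n u else 0) ?_
      exact Measurable.ite (hr (measurableSet_singleton (0 : ℝ))).compl ih measurable_const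
    exact (measurable_const (a := (1 : ℕ∞))).add h1

lemma measurable_size {r : Tr Δ → ℝ} (hr : Measurable r) :
    Measurable (fun t : Tr Δ => size r t) := by
  have h1 : ∀ a : ℕ∞, MeasurableSet {t : Tr Δ | a < size r t} := by
    intro a
    have : {t : Tr Δ | a < size r t} = ⋃ n, {t | a < sz r n t} := by
      ext t
      simp only [size, Set.mem_ofPred_eq, Set.mem_iUnion, lt_iSup_iff]
    rw [this]
    exact MeasurableSet.iUnion (fun n => measurable_sz hr n (MeasurableSet.of_discrete (s := {b | a < b})))
  refine measurable_to_countable' (fun x => ?_)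
  have : (fun t : Tr Δ => size r t) ⁻¹' {x} =
      {t | x < size r t}ᶜ ∩ ⋂ a : {a : ℕ∞ // a < x}, {t | (a : ℕ∞) < size r t} := by
    ext t
    simp only [Set.mem_preimage, Set.mem_singleton_iff, Set.mem_inter_iff, Set.mem_compl_iff,
      Set.mem_ofPred_eq, Set.mem_iInter, Subtype.forall, not_lt]
    constructor
    · rintro rfl
      exact ⟨le_rfl, fun a ha => ha⟩
    · rintro ⟨h2, h3⟩
      exact le_antisymm h2 (le_of_forall_lt h3)
  rw [this]
  exact (h1 x).compl.inter (MeasurableSet.iInter (fun a => h1 a))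

end Pool.Agent.Y782.UG
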