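import Pool.Agent.Y782.UG.Base

set_option autoImplicit false

open MeasureTheory ProbabilityTheory Filter Topology
open scoped ENNReal BigOperators

namespace Pool.Agent.Y782.UG

variable {Δ : ℕ}

/-! ## Consequences of the type rules -/

section typ
variable {lam : ℝ} {m r D : Tr Δ → ℝ} {F : Set (Tr Δ)}

lemma sumD_nonneg (h : Typ Δ lam m r D F) (t : Tr Δ) (hF : ∀ i < nch t, sub t i ∈ F) :
    0 ≤ ∑ i ∈ Finset.range (nch t), D (sub t i) :=
  Finset.sum_nonneg (fun i hi => (h.FD _ (hF i (Finset.mem_range.mp hi))).le)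

lemma pos_iff (h : Typ Δ lam m r D F) (t : Tr Δ) : 0 < m t ↔ t ∈ Bk lam r F := by
  constructor
  · intro hm
    have hF : t ∉ F := fun hF => by rw [h.Fm t hF] at hm; exact lt_irrefl _ hm
    have h0 : ∀ i < nch t, m (sub t i) = 0 := by
      intro i hi
      by_contra hne
      exact hF (h.rc t ⟨i, hi, lt_of_le_of_ne (h.m0 _) (Ne.symm hne)⟩).1
    have h1 : ∀ i < nch t, sub t i ∈ F := by
      by_contra hcon
      push Not at hcon
      have := (h.rd t h0 hcon).2
      rw [this] at hm; exact lt_irrefl _ hm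
    refine ⟨h1, ?_⟩
    by_contra h2
    exact hF (h.rb t h1 h2).1
  · rintro ⟨h1, h2⟩
    rw [h.ra t h1 h2]
    have := sumD_nonneg h t h1
    positivity

lemma m_eq_of_mem (h : Typ Δ lam m r D F) {t : Tr Δ} (ht : t ∈ Bk lam r F) :
    m t = 1 / (1 + ∑ i ∈ Finset.range (nch t), D (sub t i)) := h.ra t ht.1 ht.2

/-- a tree with `r t ≠ 0` is in case (b) -/
lemma good_of_ne (h : Typ Δ lam m r D F) {t : Tr Δ} (ht : r t ≠ 0) :
    t ∈ F ∧ (∀ i < nch t, sub t i ∈ F) ∧ lam + ∑ i ∈ Finset.range (nch t), r (sub t i) ≠ 0 := by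
  have hF : t ∈ F := by
    by_contra hcon
    exact ht (h.Fr t hcon)
  have h0 : ∀ i < nch t, m (sub t i) = 0 := by
    intro i hi
    by_contra hne
    exact ht (h.rc t ⟨i, hi, lt_of_le_of_ne (h.m0 _) (Ne.symm hne)⟩).2.1
  have h1 : ∀ i < nch t, sub t i ∈ F := by
    by_contra hcon
    push Not at hcon
    exact (h.rd t h0 hcon).1 hF
  refine ⟨hF, h1, ?_⟩
  intro h2
  have h3 : 0 < m t := (pos_iff h t).mpr ⟨h1, h2⟩
  rw [h.Fm t hF] at h3
  exact lt_irrefl _ h3

/-- a tree of `F` with `r t = 0` has a child with mass -/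
lemma child_of_zero (h : Typ Δ lam m r D F) {t : Tr Δ} (hF : t ∈ F) (hr : r t = 0) :
    ∃ i < nch t, 0 < m (sub t i) := by
  by_contra hcon
  push Not at hcon
  have h0 : ∀ i < nch t, m (sub t i) = 0 := fun i hi => le_antisymm (hcon i hi) (h.m0 _)
  have h1 : ∀ i < nch t, sub t i ∈ F := by
    by_contra hc
    push Not at hc
    exact (h.rd t h0 hc).1 hF
  by_cases h2 : lam + ∑ i ∈ Finset.range (nch t), r (sub t i) = 0
  · have h3 : 0 < m t := (pos_iff h t).mpr ⟨h1, h2⟩
    rw [h.Fm t hF] at h3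
    exact lt_irrefl _ h3
  · have h3 := (h.rb t h1 h2).2.1
    rw [hr] at h3
    have h4 : -1 / (lam + ∑ i ∈ Finset.range (nch t), r (sub t i)) ≠ 0 :=
      div_ne_zero (by norm_num) h2
    exact h4 h3.symm

lemma sum_m_pos (h : Typ Δ lam m r D F) {t : Tr Δ} (ht : ∃ i < nch t, 0 < m (sub t i)) :
    0 < ∑ i ∈ Finset.range (nch t), m (sub t i) := by
  obtain ⟨i, hi, hm⟩ := ht
  exact lt_of_lt_of_le hm (Finset.single_le_sum (f := fun i => m (sub t i))
    (fun j _ => h.m0 _) (Finset.mem_range.mpr hi))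

/-- in a block, a child with `r ≠ 0`: the remaining tree -/
lemma rem_good (h : Typ Δ lam m r D F) {t : Tr Δ} (ht : t ∈ Bk lam r F) {i : ℕ} (hi : i < nch t)
    (hr : r (sub t i) ≠ 0) :
    rem t i ∈ F ∧ r (rem t i) = 1 / r (sub t i) ∧
      D (rem t i) * r (sub t i) ^ 2 + D (sub t i) = 1 + ∑ j ∈ Finset.range (nch t), D (sub t j) := by
  have h1 : ∀ j < nch (rem t i), sub (rem t i) j ∈ F :=
    (forall_rem t hi (fun u => u ∈ F)).mpr (fun j hj _ => ht.1 j hj)
  have hs := sum_rem t hi r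
  have hD := sum_rem t hi D
  have h2 : lam + ∑ j ∈ Finset.range (nch (rem t i)), r (sub (rem t i) j) = - r (sub t i) := by
    have := ht.2
    rw [← hs] at this
    linarith
  have h3 := h.rb (rem t i) h1 (by rw [h2]; exact neg_ne_zero.mpr hr)
  rw [h2] at h3
  refine ⟨h3.1, ?_, ?_⟩
  · rw [h3.2.1]; field_simp
  · rw [h3.2.2, ← hD]; field_simp; ring

/-- in a block, a child with `r = 0`: the remaining tree carries mass -/
lemma rem_zero (h : Typ Δ lam m r D F) {t : Tr Δ} (ht : t ∈ Bk lam r F) {i : ℕ} (hi : i < nch t)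
    (hr : r (sub t i) = 0) :
    rem t i ∈ Bk lam r F ∧
      1 / m (rem t i) + D (sub t i) = 1 + ∑ j ∈ Finset.range (nch t), D (sub t j) ∧
      (∃ j < nch (sub t i), 0 < m (sub (sub t i) j)) ∧
      D (sub t i) = 1 / ∑ j ∈ Finset.range (nch (sub t i)), m (sub (sub t i) j) := by
  have h1 : ∀ j < nch (rem t i), sub (rem t i) j ∈ F :=
    (forall_rem t hi (fun u => u ∈ F)).mpr (fun j hj _ => ht.1 j hj)
  have hs := sum_rem t hi r
  have hD := sum_rem t hi D
  have h2 : lam + ∑ j ∈ Finset.range (nch (rem t i)), r (sub (rem t i) j) = 0 := by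
    have := ht.2
    rw [← hs, hr] at this
    linarith
  have h3 := h.ra (rem t i) h1 h2
  have h4 := child_of_zero h (ht.1 i hi) hr
  refine ⟨⟨h1, h2⟩, ?_, h4, (h.rc _ h4).2.2⟩
  rw [h3, ← hD, one_div_one_div]
  ring

/-- block edges -/
lemma ed_iff (h : Typ Δ lam m r D F) (t : Tr Δ) {i : ℕ} (hi : i < nch t) :
    Ed r (sub t i) (rem t i) ↔ t ∈ Bk lam r F ∧ r (sub t i) ≠ 0 := by
  constructor
  · rintro ⟨h1, h2, h3⟩
    refine ⟨?_, h1⟩
    obtain ⟨_, g2, g3⟩ := good_of_ne h h2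
    have g4 := (h.rb (rem t i) g2 g3).2.1
    have hs := sum_rem t hi r
    refine ⟨?_, ?_⟩
    · intro j hj
      by_cases hji : j = i
      · rw [hji]; exact (good_of_ne h h1).1
      · exact (forall_rem t hi (fun u => u ∈ F)).mp g2 j hj hji
    · rw [← hs]
      rw [g4] at h3
      have : lam + ∑ j ∈ Finset.range (nch (rem t i)), r (sub (rem t i) j) = - r (sub t i) := by
        have h5 : r (sub t i) * (-1) = lam + ∑ j ∈ Finset.range (nch (rem t i)), r (sub (rem t i) j) := by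
          rw [mul_div_assoc'] at h3
          exact (div_eq_one_iff_eq g3).mp h3
        linarith
      linarith
  · rintro ⟨h1, h2⟩
    obtain ⟨g1, g2, g3⟩ := rem_good h h1 hi h2
    refine ⟨h2, ?_, ?_⟩
    · rw [g2]; exact one_div_ne_zero h2
    · rw [g2]; field_simp

/-- edges towards a vertex with mass beyond it -/
lemma back (h : Typ Δ lam m r D F) (t : Tr Δ) {i : ℕ} (hi : i < nch t)
    (h1 : ∃ j < nch (sub t i), 0 < m (sub (sub t i) j)) (h2 : 0 < m (rem t i)) :
    t ∈ Bk lam r F ∧ r (sub t i) = 0 := by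
  obtain ⟨g1, g2, _⟩ := h.rc _ h1
  obtain ⟨g3, g4⟩ := (pos_iff h _).mp h2
  have hs := sum_rem t hi r
  refine ⟨⟨?_, ?_⟩, g2⟩
  · intro j hj
    by_cases hji : j = i
    · rw [hji]; exact g1
    · exact (forall_rem t hi (fun u => u ∈ F)).mp g3 j hj hji
  · rw [← hs, g2]; linarith

end typ

/-! ## Cluster sizes -/

lemma sz_mono (r : Tr Δ → ℝ) (n : ℕ) (t : Tr Δ) : sz r n t ≤ sz r (n + 1) t := by
  classical
  induction n generalizing t with
  | zero => exact bot_le
  | succ n ih =>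
    show 1 + _ ≤ 1 + _
    refine add_le_add le_rfl (Finset.sum_le_sum (fun i _ => ?_))
    by_cases h : r (sub t i) ≠ 0
    · rw [if_pos h, if_pos h]; exact ih _
    · rw [if_neg h, if_neg h]

lemma sz_monotone (r : Tr Δ → ℝ) (t : Tr Δ) : Monotone (fun n => sz r n t) :=
  monotone_nat_of_le_succ (fun n => sz_mono r n t)

open Classical in
lemma size_eq (r : Tr Δ → ℝ) (t : Tr Δ) :
    size r t = 1 + ∑ i ∈ Finset.range (nch t), (if r (sub t i) ≠ 0 then size r (sub t i) else 0) := by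
  have h1 : size r t = ⨆ n, sz r (n + 1) t := by
    unfold size
    exact ((sz_monotone r t).iSup_nat_add 1).symm
  rw [h1]
  simp only [sz]
  have h2 : ∀ (s : Finset ℕ), (⨆ n : ℕ, ∑ i ∈ s, (if r (sub t i) ≠ 0 then sz r n (sub t i) else 0)) =
      ∑ i ∈ s, (if r (sub t i) ≠ 0 then size r (sub t i) else 0) := by
    intro s
    induction s using Finset.induction_on with
    | empty => simp
    | insert a s ha ih =>
      simp only [Finset.sum_insert ha]
      rw [← ih]
      have hm1 : Monotone (fun n : ℕ => if r (sub t a) ≠ 0 then sz r n (sub t a) else (0 : ℕ∞)) := by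
        intro i j hij
        dsimp only
        by_cases h : r (sub t a) ≠ 0
        · rw [if_pos h, if_pos h]; exact sz_monotone r _ hij
        · rw [if_neg h, if_neg h]
      have hm2 : Monotone (fun n : ℕ => ∑ i ∈ s, (if r (sub t i) ≠ 0 then sz r n (sub t i) else (0 : ℕ∞))) := by
        intro i j hij
        refine Finset.sum_le_sum (fun k _ => ?_)
        by_cases h : r (sub t k) ≠ 0
        · rw [if_pos h, if_pos h]; exact sz_monotone r _ hij
        · rw [if_neg h, if_neg h]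
      have h4 : (⨆ n : ℕ, if r (sub t a) ≠ 0 then sz r n (sub t a) else (0 : ℕ∞)) =
          if r (sub t a) ≠ 0 then size r (sub t a) else 0 := by
        by_cases h : r (sub t a) ≠ 0
        · simp only [if_pos h]; rfl
        · simp only [if_neg h]; simp
      rw [← h4]
      exact (ENat.iSup_add_iSup_of_monotone hm1 hm2).symm
  rw [← h2, ENat.add_iSup]

lemma size_ge_one (r : Tr Δ → ℝ) (t : Tr Δ) : 1 ≤ size r t := by
  classical
  rw [size_eq]; exact le_self_add

open Classical in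
/-- the cluster size of `t` splits along a block edge -/
lemma size_rem (r : Tr Δ → ℝ) (t : Tr Δ) {i : ℕ} (hi : i < nch t) :
    size r t = size r (rem t i) + (if r (sub t i) ≠ 0 then size r (sub t i) else 0) := by
  rw [size_eq r t, size_eq r (rem t i),
    ← sum_rem t hi (fun u => if r u ≠ 0 then size r u else 0), add_assoc]

lemma size_rem_good (r : Tr Δ → ℝ) (t : Tr Δ) {i : ℕ} (hi : i < nch t) (h : r (sub t i) ≠ 0) :
    size r t = size r (rem t i) + size r (sub t i) := by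
  classical
  rw [size_rem r t hi, if_pos h]

lemma size_rem_zero (r : Tr Δ → ℝ) (t : Tr Δ) {i : ℕ} (hi : i < nch t) (h : r (sub t i) = 0) :
    size r t = size r (rem t i) := by
  classical
  rw [size_rem r t hi, if_neg (by simpa using h), add_zero]

/-! ## Symmetrisation -/

/-- The transport identity turns a weight `w` on edges with `w u v + w v u = s u v` into half of `s`. -/
lemma half {p ph : Measure (Fin (Δ + 1))} [IsProbabilityMeasure p] [IsProbabilityMeasure ph]
    {mb : ℝ≥0∞} (hT : TR p ph mb) (w s : Tr Δ → Tr Δ → ℝ≥0∞)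
    (hw : Measurable (fun x : Tr Δ × Tr Δ => w x.1 x.2))
    (hs : Measurable (fun x : Tr Δ × Tr Δ => s x.1 x.2))
    (h : ∀ u v, w u v + w v u = s u v) :
    2 * ∫⁻ t, ∑ i ∈ Finset.range (nch t), w (sub t i) (rem t i) ∂(Q0 p ph) =
      ∫⁻ t, ∑ i ∈ Finset.range (nch t), s (sub t i) (rem t i) ∂(Q0 p ph) := by
  rw [hT w hw, hT s hs, two_mul, ← mul_add]
  congr 1
  have h1 : ∫⁻ u, ∫⁻ v, w u v ∂(Q ph) ∂(Q ph) = ∫⁻ u, ∫⁻ v, w v u ∂(Q ph) ∂(Q ph) :=
    lintegral_lintegral_swap hw.aemeasurable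
  conv_lhs => rw [show (∫⁻ u, ∫⁻ v, w u v ∂(Q ph) ∂(Q ph) + ∫⁻ u, ∫⁻ v, w u v ∂(Q ph) ∂(Q ph)) =
    (∫⁻ u, ∫⁻ v, w u v ∂(Q ph) ∂(Q ph) + ∫⁻ u, ∫⁻ v, w v u ∂(Q ph) ∂(Q ph)) from by rw [← h1]]
  rw [← lintegral_add_left (Measurable.lintegral_prod_right' (f := fun x : Tr Δ × Tr Δ => w x.1 x.2) hw)]
  refine lintegral_congr (fun u => ?_)
  have hwu : Measurable (fun v => w u v) := hw.comp measurable_prodMk_left
  show ∫⁻ v, w u v ∂(Q ph) + ∫⁻ v, w v u ∂(Q ph) = _
  rw [← lintegral_add_left hwu]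
  exact lintegral_congr (fun v => h u v)

/-- reversal of edges -/
lemma swap {p ph : Measure (Fin (Δ + 1))} [IsProbabilityMeasure p] [IsProbabilityMeasure ph]
    {mb : ℝ≥0∞} (hT : TR p ph mb) (w : Tr Δ → Tr Δ → ℝ≥0∞)
    (hw : Measurable (fun x : Tr Δ × Tr Δ => w x.1 x.2)) :
    ∫⁻ t, ∑ i ∈ Finset.range (nch t), w (sub t i) (rem t i) ∂(Q0 p ph) =
      ∫⁻ t, ∑ i ∈ Finset.range (nch t), w (rem t i) (sub t i) ∂(Q0 p ph) := by
  rw [hT w hw, hT (fun u v => w v u) (hw.comp measurable_swap)]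
  congr 1
  exact lintegral_lintegral_swap hw.aemeasurable

end Pool.Agent.Y782.UG
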