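import Pool.Agent.Y782.UG.Base2

set_option autoImplicit false

open MeasureTheory ProbabilityTheory Filter Topology
open scoped ENNReal BigOperators

namespace Pool.Agent.Y782.UG

variable {Δ : ℕ}

lemma dg_le (r : Tr Δ → ℝ) (t : Tr Δ) : dg r t ≤ Δ := by
  classical
  unfold dg
  calc ((Finset.range (nch t)).filter (fun i => r (sub t i) ≠ 0)).card
      ≤ (Finset.range (nch t)).card := Finset.card_filter_le _ _
    _ = nch t := Finset.card_range _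
    _ ≤ Δ := nch_le t

instance Q0_prob {p ph : Measure (Fin (Δ + 1))} [IsProbabilityMeasure p]
    [IsProbabilityMeasure ph] : IsProbabilityMeasure (Q0 p ph) := by
  unfold Q0
  apply Measure.isProbabilityMeasure_map
  apply Measurable.aemeasurable
  refine measurable_pi_iff.mpr (fun w => ?_)
  cases w with
  | nil => exact measurable_fst
  | cons a w => exact (measurable_pi_apply w).comp ((measurable_pi_apply a).comp measurable_snd)

lemma no_inf (hT1I : S_T1I) (hT3 : S_T3) {p ph : Measure (Fin (Δ + 1))} [IsProbabilityMeasure p]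
    [IsProbabilityMeasure ph] {mb : ℝ≥0∞} (hT : TR p ph mb) {lam : ℝ} {m r D : Tr Δ → ℝ}
    {F : Set (Tr Δ)} (h : Typ Δ lam m r D F) :
    Q0 p ph (Bk lam r F ∩ {t | size r t = ⊤}) = 0 := by
  have h1 := hT1I Δ p ph mb hT lam m r D F h
  have h2 := hT3 Δ p ph mb hT lam m r D F h
  set I := Bk lam r F ∩ {t | size r t = ⊤} with hI
  have hIm : MeasurableSet I := (measurableSet_Bk h.mr h.mF).inter
    (measurable_size h.mr (measurableSet_singleton (⊤ : ℕ∞)))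
  have hfin : ∫⁻ t in I, (dg r t : ℝ≥0∞) ∂(Q0 p ph) ≠ ⊤ := by
    refine ne_of_lt (lt_of_le_of_lt (lintegral_mono (g := fun _ => ((Δ : ℕ) : ℝ≥0∞)) ?_) ?_)
    · intro t
      show ((dg r t : ℕ) : ℝ≥0∞) ≤ ((Δ : ℕ) : ℝ≥0∞)
      exact_mod_cast dg_le r t
    · rw [lintegral_const]
      exact ENNReal.mul_lt_top (ENNReal.natCast_lt_top _) (measure_lt_top _ _)
  have h3 : 2 * ∫⁻ t in I, ENNReal.ofReal (m t) ∂(Q0 p ph) +
      ∫⁻ t in I, (dg r t : ℝ≥0∞) ∂(Q0 p ph) ≤ 0 + ∫⁻ t in I, (dg r t : ℝ≥0∞) ∂(Q0 p ph) := by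
    rw [zero_add]; exact h1.trans h2
  have h4 : 2 * ∫⁻ t in I, ENNReal.ofReal (m t) ∂(Q0 p ph) ≤ 0 :=
    (ENNReal.add_le_add_iff_right hfin).mp h3
  have h5 : ∫⁻ t in I, ENNReal.ofReal (m t) ∂(Q0 p ph) = 0 := by
    have := le_antisymm h4 bot_le
    simpa using this
  rw [lintegral_eq_zero_iff h.mm.ennreal_ofReal] at h5
  have h6 : ∀ᵐ t ∂(Q0 p ph), t ∈ I → ENNReal.ofReal (m t) = 0 := by
    rw [← ae_restrict_iff' hIm]; exact h5
  have h7 : ∀ᵐ t ∂(Q0 p ph), t ∉ I := by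
    filter_upwards [h6] with t ht hti
    have := ht hti
    rw [ENNReal.ofReal_eq_zero] at this
    exact absurd ((pos_iff h t).mpr hti.1) (not_lt.mpr this)
  rw [ae_iff] at h7
  simpa using h7

lemma two_le (hT1A : S_T1A) (hT1I : S_T1I) (hT2 : S_T2) (hT3 : S_T3)
    {p ph : Measure (Fin (Δ + 1))} [IsProbabilityMeasure p]
    [IsProbabilityMeasure ph] {mb : ℝ≥0∞} (hT : TR p ph mb) {lam : ℝ} {m r D : Tr Δ → ℝ}
    {F : Set (Tr Δ)} (h : Typ Δ lam m r D F) {K : ℕ} (hK : ∀ t ∈ Bk lam r F, (K : ℕ∞) ≤ size r t) :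
    Q0 p ph (Two m) ≤ (K : ℝ≥0∞)⁻¹ := by
  have h0 := no_inf hT1I hT3 hT h
  have h1 := hT1A Δ p ph mb hT lam m r D F h
  have h2 := hT2 Δ p ph mb hT lam m r D F h
  set J := Bk lam r F ∩ {t | size r t ≠ ⊤} with hJ
  have hBm := measurableSet_Bk (lam := lam) h.mr h.mF
  have h3 : Q0 p ph (Bk lam r F) ≤ Q0 p ph J := by
    have : Bk lam r F ⊆ J ∪ (Bk lam r F ∩ {t | size r t = ⊤}) := by
      intro t ht
      by_cases hs : size r t = ⊤
      · exact Or.inr ⟨ht, hs⟩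
      · exact Or.inl ⟨ht, hs⟩
    refine (measure_mono this).trans ((measure_union_le _ _).trans ?_)
    rw [h0, add_zero]
  have hJm : MeasurableSet J := hBm.inter
    (measurable_size h.mr (measurableSet_singleton (⊤ : ℕ∞))).compl
  have h4 : ∫⁻ t in J, (dg r t : ℝ≥0∞) ∂(Q0 p ph) ≤ ∫⁻ t in Bk lam r F, (dg r t : ℝ≥0∞) ∂(Q0 p ph) :=
    lintegral_mono_set Set.inter_subset_left
  have hfin : ∫⁻ t in Bk lam r F, (dg r t : ℝ≥0∞) ∂(Q0 p ph) ≠ ⊤ := by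
    refine ne_of_lt (lt_of_le_of_lt (lintegral_mono (g := fun _ => ((Δ : ℕ) : ℝ≥0∞)) ?_) ?_)
    · intro t
      show ((dg r t : ℕ) : ℝ≥0∞) ≤ ((Δ : ℕ) : ℝ≥0∞)
      exact_mod_cast dg_le r t
    · rw [lintegral_const]
      exact ENNReal.mul_lt_top (ENNReal.natCast_lt_top _) (measure_lt_top _ _)
  have h5 : ∫⁻ t in J, ((size r t : ℕ∞) : ℝ≥0∞)⁻¹ ∂(Q0 p ph) ≤ (K : ℝ≥0∞)⁻¹ := by
    calc ∫⁻ t in J, ((size r t : ℕ∞) : ℝ≥0∞)⁻¹ ∂(Q0 p ph)
        ≤ ∫⁻ _ in J, (K : ℝ≥0∞)⁻¹ ∂(Q0 p ph) := by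
          refine setLIntegral_mono' hJm (fun t ht => ?_)
          rw [ENNReal.inv_le_inv]
          have := ENat.toENNReal_le.mpr (hK t ht.1)
          simpa using this
      _ = (K : ℝ≥0∞)⁻¹ * Q0 p ph J := by rw [setLIntegral_const]
      _ ≤ (K : ℝ≥0∞)⁻¹ * 1 := by gcongr; exact prob_le_one
      _ = (K : ℝ≥0∞)⁻¹ := mul_one _
  have h6 : 2 * Q0 p ph (Two m) + ∫⁻ t in Bk lam r F, (dg r t : ℝ≥0∞) ∂(Q0 p ph) ≤
      2 * (K : ℝ≥0∞)⁻¹ + ∫⁻ t in Bk lam r F, (dg r t : ℝ≥0∞) ∂(Q0 p ph) := by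
    refine h1.trans ?_
    refine (mul_le_mul_right h3 2).trans (h2.trans ?_)
    exact add_le_add (mul_le_mul_right h5 2) h4
  have h7 := (ENNReal.add_le_add_iff_right hfin).mp h6
  exact (ENNReal.mul_le_mul_iff_right (by norm_num) (by norm_num)).mp h7

theorem core (hTR : S_TR) (hT1A : S_T1A) (hT1I : S_T1I) (hT2 : S_T2) (hT3 : S_T3)
    (hX2 : S_X2) (hXI : S_XI) (hU : S_U) (hU0 : S_U0) (hFS : S_FS) (hQ1 : S_Q1) : S_CORE := by
  intro Δ p ph _ _ mb hSB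
  have hT := hTR Δ p ph mb hSB
  -- conclusion from `x = 0`
  have hconc : ∀ (lam : ℝ) (m r D : Tr Δ → ℝ) (F : Set (Tr Δ)), Typ Δ lam m r D F →
      Q ph {u | 0 < m u} = 0 → Q0 p ph {t | 0 < m t} = 0 := by
    intro lam m r D F h hx
    have h1 := hU0 Δ p ph mb hSB lam m r D F h hx
    have h2 := no_inf hT1I hT3 hT h
    have : {t | 0 < m t} ⊆ (Bk lam r F ∩ {t | size r t ≠ ⊤}) ∪ (Bk lam r F ∩ {t | size r t = ⊤}) := by
      intro t ht
      have hb := (pos_iff h t).mp ht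
      by_cases hs : size r t = ⊤
      · exact Or.inr ⟨hb, hs⟩
      · exact Or.inl ⟨hb, hs⟩
    refine le_antisymm ((measure_mono this).trans ((measure_union_le _ _).trans ?_)) bot_le
    rw [h1, h2, add_zero]
  by_cases hq : ph {k | (k : ℕ) ≠ 1} = 0
  · exact ⟨∅, Set.finite_empty, fun lam _ m r D F h =>
      hconc lam m r D F h (hQ1 Δ ph hSB.ph1 hq lam m r D F h)⟩
  · obtain ⟨ζ, θ, x0, hζ, hθ, hx0, hUU⟩ := hU Δ ph hSB.ph1 hq
    obtain ⟨K1, hK1⟩ := pow_unbounded_of_one_lt θ hζ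
    obtain ⟨K2, hK2⟩ := exists_nat_gt (1 / x0 ^ 2)
    set K := max K1 K2 with hKdef
    have hKθ : θ < ζ ^ K := lt_of_lt_of_le hK1 (pow_le_pow_right₀ hζ.le (le_max_left _ _))
    have hKx : (K : ℝ≥0∞)⁻¹ ≤ ENNReal.ofReal x0 ^ 2 := by
      have h1 : 1 / x0 ^ 2 < (K : ℝ) := lt_of_lt_of_le hK2 (by exact_mod_cast le_max_right _ _)
      have hKpos : (0 : ℝ) < K := lt_trans (by positivity) h1
      have h2 : (K : ℝ)⁻¹ ≤ x0 ^ 2 := by
        rw [div_lt_iff₀ (by positivity)] at h1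
        rw [inv_le_iff_one_le_mul₀ hKpos]
        linarith
      rw [← ENNReal.ofReal_pow hx0.le]
      have h3 : (K : ℝ≥0∞)⁻¹ = ENNReal.ofReal ((K : ℝ)⁻¹) := by
        rw [ENNReal.ofReal_inv_of_pos hKpos, ENNReal.ofReal_natCast]
      rw [h3]
      exact ENNReal.ofReal_le_ofReal h2
    refine ⟨_, hFS Δ K, ?_⟩
    intro lam hlam m r D F h
    have hK : ∀ t ∈ Bk lam r F, (K : ℕ∞) < size r t := by
      intro t ht
      by_contra hcon
      exact hlam ⟨m, r, D, F, h, t, ht, not_lt.mp hcon⟩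
    apply hconc lam m r D F h
    have h2 := two_le hT1A hT1I hT2 hT3 hT h (fun t ht => (hK t ht).le)
    have h3 := hX2 Δ p ph mb hSB m h.mm
    have hx : Q ph {u | 0 < m u} ≤ ENNReal.ofReal x0 := by
      by_contra hcon
      have h4 : ENNReal.ofReal x0 ^ 2 < Q ph {u | 0 < m u} ^ 2 :=
        ENNReal.pow_lt_pow_left (by norm_num) (not_le.mp hcon)
      exact absurd ((h4.trans_le h3).trans_le (h2.trans hKx)) (lt_irrefl _)
    have h4 := hUU lam m r D F h hx K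
    have h5 := hXI Δ p ph mb hSB hT lam m r D F h (no_inf hT1I hT3 hT h)
    have h6 : Q ph {u | 0 < m u} ≤ Q ph {u | 0 < m u ∧ (K : ℕ∞) ≤ size r u ∧ size r u ≠ ⊤} := by
      have : {u | 0 < m u} ⊆ {u | 0 < m u ∧ (K : ℕ∞) ≤ size r u ∧ size r u ≠ ⊤} ∪
          {u | 0 < m u ∧ size r u = ⊤} := by
        intro u hu
        by_cases hs : size r u = ⊤
        · exact Or.inr ⟨hu, hs⟩
        · exact Or.inl ⟨hu, (hK u ((pos_iff h u).mp hu)).le, hs⟩
      refine (measure_mono this).trans ((measure_union_le _ _).trans ?_)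
      rw [h5, add_zero]
    have h7 : ENNReal.ofReal (ζ ^ K) * Q ph {u | 0 < m u} ≤ ENNReal.ofReal θ * Q ph {u | 0 < m u} :=
      (mul_le_mul_right h6 _).trans h4
    by_contra hne
    have hfin : Q ph {u | 0 < m u} ≠ ⊤ := measure_ne_top _ _
    have h8 := (ENNReal.mul_le_mul_iff_left hne hfin).mp h7
    rw [ENNReal.ofReal_le_ofReal_iff hθ.le] at h8
    linarith

end Pool.Agent.Y782.UG
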