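import Mathlib

set_option autoImplicit false

open MeasureTheory ProbabilityTheory Filter Topology
open scoped ENNReal BigOperators

namespace Pool.Agent.Y782.UG

/-! ## Trees -/

/-- A tree with at most `Δ` children per vertex: `t w` is the number of children of the word `w`
(the root is `[]`, the children of `w` are the words `w ++ [a]`, `a < t w`). -/
abbrev Tr (Δ : ℕ) := List ℕ → Fin (Δ + 1)

/-- `w` is a vertex of the tree with offspring numbers `n` -/
def vx (n : List ℕ → ℕ) (w : List ℕ) : Prop := ∀ j < w.length, w.getD j 0 < n (w.take j)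

open Classical in
/-- the number of walks of length `k` from the root `[]` to `w` in the tree `n` -/
noncomputable def wn (n : List ℕ → ℕ) : ℕ → List ℕ → ℕ
  | 0, w => if w = [] then 1 else 0
  | k + 1, w => if vx n w then
      (if w = [] then 0 else wn n k w.dropLast) + ∑ a ∈ Finset.range (n w), wn n k (w ++ [a])
      else 0

variable {Δ : ℕ}

/-- the offspring numbers of `t` -/
def off (t : Tr Δ) : List ℕ → ℕ := fun w => (t w : ℕ)

/-- the number of children of the root -/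
def nch (t : Tr Δ) : ℕ := (t [] : ℕ)

/-- the subtree at the child `i` of the root -/
def sub (t : Tr Δ) (i : ℕ) : Tr Δ := fun w => t (i :: w)

/-- the tree `t` without the branch at the child `i` of the root (the others are renumbered) -/
def rem (t : Tr Δ) (i : ℕ) : Tr Δ
  | [] => ⟨(t [] : ℕ) - 1, lt_of_le_of_lt (Nat.sub_le _ _) (t []).isLt⟩
  | a :: w => t ((if a < i then a else a + 1) :: w)

/-- the tree with `k` children at the root and subtrees `c` -/
def mk (k : Fin (Δ + 1)) (c : ℕ → Tr Δ) : Tr Δ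
  | [] => k
  | a :: w => c a w

/-- offspring laws: `p` at the root and `ph` elsewhere -/
def lw (p ph : Measure (Fin (Δ + 1))) : List ℕ → Measure (Fin (Δ + 1))
  | [] => p
  | _ :: _ => ph

instance lw_prob (p ph : Measure (Fin (Δ + 1))) [IsProbabilityMeasure p]
    [IsProbabilityMeasure ph] : ∀ w, IsProbabilityMeasure (lw p ph w)
  | [] => by unfold lw; infer_instance
  | _ :: _ => by unfold lw; infer_instance

/-- Galton-Watson tree with offspring law `ph` -/
noncomputable def Q (ph : Measure (Fin (Δ + 1))) [IsProbabilityMeasure ph] : Measure (Tr Δ) :=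
  Measure.infinitePi (fun _ : List ℕ => ph)

instance (ph : Measure (Fin (Δ + 1))) [IsProbabilityMeasure ph] : IsProbabilityMeasure (Q ph) := by
  unfold Q; infer_instance

/-- the tree with offspring law `p` at the root and `ph` elsewhere -/
noncomputable def Q0 (p ph : Measure (Fin (Δ + 1))) [IsProbabilityMeasure p]
    [IsProbabilityMeasure ph] : Measure (Tr Δ) :=
  (p.prod (Measure.infinitePi (fun _ : ℕ => Q ph))).map (fun x => mk x.1 x.2)

/-- `ph` is the size biased offspring law of the degree law `p`, with mean degree `mb`; the degree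
is at least two -/
structure SB (p ph : Measure (Fin (Δ + 1))) (mb : ℝ≥0∞) : Prop where
  p2 : p {k | (k : ℕ) < 2} = 0
  ph1 : ph {k | (k : ℕ) < 1} = 0
  mbpos : mb ≠ 0
  mbtop : mb ≠ ⊤
  bias : ∀ F : ℕ → ℝ≥0∞, ∫⁻ k, ((k : ℕ) : ℝ≥0∞) * F ((k : ℕ) - 1) ∂p = mb * ∫⁻ k, F (k : ℕ) ∂ph

/-- the edge transport identity -/
def TR (p ph : Measure (Fin (Δ + 1))) [IsProbabilityMeasure p] [IsProbabilityMeasure ph]
    (mb : ℝ≥0∞) : Prop :=
  ∀ Φ : Tr Δ → Tr Δ → ℝ≥0∞, Measurable (fun x : Tr Δ × Tr Δ => Φ x.1 x.2) →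
    ∫⁻ t, ∑ i ∈ Finset.range (nch t), Φ (sub t i) (rem t i) ∂(Q0 p ph)
      = mb * ∫⁻ u, ∫⁻ v, Φ u v ∂(Q ph) ∂(Q ph)

/-! ## Types at a real energy -/

/-- The type functions of the trees at the energy `lam`: `m t` is the mass of the spectral measure
of the root at `lam`; `F` is the set of trees with `∫ (x - lam)^(-2) dμ_t < ∞`, on it
`r t = ∫ (x - lam)^(-1) dμ_t` and `D t = ∫ (x - lam)^(-2) dμ_t`. -/
structure Typ (Δ : ℕ) (lam : ℝ) (m r D : Tr Δ → ℝ) (F : Set (Tr Δ)) : Prop where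
  mm : Measurable m
  mr : Measurable r
  mD : Measurable D
  mF : MeasurableSet F
  m0 : ∀ t, 0 ≤ m t
  m1 : ∀ t, m t ≤ 1
  Fm : ∀ t ∈ F, m t = 0
  FD : ∀ t ∈ F, 0 < D t
  Fr : ∀ t, t ∉ F → r t = 0
  ra : ∀ t, (∀ i < nch t, sub t i ∈ F) → lam + ∑ i ∈ Finset.range (nch t), r (sub t i) = 0 →
    m t = 1 / (1 + ∑ i ∈ Finset.range (nch t), D (sub t i))
  rb : ∀ t, (∀ i < nch t, sub t i ∈ F) → lam + ∑ i ∈ Finset.range (nch t), r (sub t i) ≠ 0 →
    t ∈ F ∧ r t = -1 / (lam + ∑ i ∈ Finset.range (nch t), r (sub t i)) ∧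
      D t = (1 + ∑ i ∈ Finset.range (nch t), D (sub t i)) /
        (lam + ∑ i ∈ Finset.range (nch t), r (sub t i)) ^ 2
  rc : ∀ t, (∃ i < nch t, 0 < m (sub t i)) →
    t ∈ F ∧ r t = 0 ∧ D t = 1 / ∑ i ∈ Finset.range (nch t), m (sub t i)
  rd : ∀ t, (∀ i < nch t, m (sub t i) = 0) → (∃ i < nch t, sub t i ∉ F) → t ∉ F ∧ m t = 0

/-- trees whose root lies in a block -/
def Bk (lam : ℝ) (r : Tr Δ → ℝ) (F : Set (Tr Δ)) : Set (Tr Δ) :=
  {t | (∀ i < nch t, sub t i ∈ F) ∧ lam + ∑ i ∈ Finset.range (nch t), r (sub t i) = 0}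

/-- an edge of a block: the messages `r u`, `r v` are inverse to each other -/
def Ed (r : Tr Δ → ℝ) (u v : Tr Δ) : Prop := r u ≠ 0 ∧ r v ≠ 0 ∧ r u * r v = 1

open Classical in
/-- number of children of the root in its block -/
noncomputable def dg (r : Tr Δ → ℝ) (t : Tr Δ) : ℕ :=
  ((Finset.range (nch t)).filter (fun i => r (sub t i) ≠ 0)).card

open Classical in
/-- size of the downward cluster of the root, cut at depth `n` -/
noncomputable def sz (r : Tr Δ → ℝ) : ℕ → Tr Δ → ℕ∞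
  | 0, _ => 0
  | n + 1, t => 1 + ∑ i ∈ Finset.range (nch t), (if r (sub t i) ≠ 0 then sz r n (sub t i) else 0)

/-- size of the downward cluster of the root -/
noncomputable def size (r : Tr Δ → ℝ) (t : Tr Δ) : ℕ∞ := ⨆ n, sz r n t

/-- at least two children of the root carry mass -/
def Two (m : Tr Δ → ℝ) : Set (Tr Δ) :=
  {t | ∃ i < nch t, ∃ j < nch t, i ≠ j ∧ 0 < m (sub t i) ∧ 0 < m (sub t j)}

/-! ## Stieltjes transforms -/

/-- Stieltjes transform -/
noncomputable def G (μ : Measure ℝ) (z : ℂ) : ℂ := ∫ x, 1 / ((x : ℂ) - z) ∂μ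

/-- `∫ (x - lam)^(-2) dμ < ∞` -/
def fin (lam : ℝ) (μ : Measure ℝ) : Prop :=
  μ {lam} = 0 ∧ Integrable (fun x : ℝ => 1 / (x - lam) ^ 2) μ

/-- `∫ (x - lam)^(-1) dμ` -/
noncomputable def rr (lam : ℝ) (μ : Measure ℝ) : ℝ := ∫ x, 1 / (x - lam) ∂μ

/-- `∫ (x - lam)^(-2) dμ` -/
noncomputable def DD (lam : ℝ) (μ : Measure ℝ) : ℝ := ∫ x, 1 / (x - lam) ^ 2 ∂μ

/-- the point `lam + i ε` -/
noncomputable def pt (lam ε : ℝ) : ℂ := (lam : ℂ) + (ε : ℂ) * Complex.I

/-- the Hilbert space `ℓ²(List ℕ)` -/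
noncomputable abbrev H2 := lp (fun _ : List ℕ => ℂ) 2

end Pool.Agent.Y782.UG
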