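import Pool.Agent.Y782.UG.Core

set_option autoImplicit false

open MeasureTheory ProbabilityTheory Filter Topology
open scoped ENNReal BigOperators

namespace Pool.Agent.Y782.UG

/-- The spectral measures of the trees give type functions at every energy. -/
lemma typ_of_family (hL2 : S_L2) (hRA : S_RA) (hRB : S_RB) (hRC : S_RC) (hRD : S_RD)
    (hMEAS : S_MEAS) (Δ : ℕ) (μ : Tr Δ → Measure ℝ) (hμ : ∀ t, IsProbabilityMeasure (μ t))
    (hrec : ∀ t (z : ℂ), 0 < z.im →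
      G (μ t) z = -1 / (z + ∑ i ∈ Finset.range (nch t), G (μ (sub t i)) z))
    (hmeas : ∀ f : ℝ → ℝ, Continuous f → (∃ C, ∀ x, |f x| ≤ C) →
      Measurable (fun t => ∫ x, f x ∂(μ t))) (lam : ℝ) :
    ∃ (r D : Tr Δ → ℝ) (F : Set (Tr Δ)), Typ Δ lam (fun t => (μ t).real {lam}) r D F := by
  classical
  obtain ⟨h1, h2, ⟨g1, hg1, hg1'⟩, ⟨g2, hg2, hg2'⟩⟩ := hMEAS (Tr Δ) μ hμ hmeas lam
  set F : Set (Tr Δ) := {t | fin lam (μ t)} with hF
  set r : Tr Δ → ℝ := F.indicator g1 with hr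
  set D : Tr Δ → ℝ := F.indicator g2 with hD
  have hrF : ∀ t ∈ F, r t = rr lam (μ t) := fun t ht => by
    rw [hr, Set.indicator_of_mem ht, hg1' t ht]
  have hDF : ∀ t ∈ F, D t = DD lam (μ t) := fun t ht => by
    rw [hD, Set.indicator_of_mem ht, hg2' t ht]
  have him : ∀ ε : ℝ, 0 < ε → 0 < (pt lam ε).im := fun ε hε => by simp [pt, hε]
  have hrec' : ∀ t, ∀ ε : ℝ, 0 < ε → G (μ t) (pt lam ε) =
      -1 / (pt lam ε + ∑ i ∈ Finset.range (nch t), G (μ (sub t i)) (pt lam ε)) :=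
    fun t ε hε => hrec t _ (him ε hε)
  have hsr : ∀ t, (∀ i < nch t, sub t i ∈ F) →
      ∑ i ∈ Finset.range (nch t), r (sub t i) = ∑ i ∈ Finset.range (nch t), rr lam (μ (sub t i)) :=
    fun t ht => Finset.sum_congr rfl (fun i hi => hrF _ (ht i (Finset.mem_range.mp hi)))
  have hsD : ∀ t, (∀ i < nch t, sub t i ∈ F) →
      ∑ i ∈ Finset.range (nch t), D (sub t i) = ∑ i ∈ Finset.range (nch t), DD lam (μ (sub t i)) :=
    fun t ht => Finset.sum_congr rfl (fun i hi => hDF _ (ht i (Finset.mem_range.mp hi)))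
  refine ⟨r, D, F, ?_⟩
  refine
    { mm := h1
      mr := hg1.indicator h2
      mD := hg2.indicator h2
      mF := h2
      m0 := fun t => measureReal_nonneg
      m1 := fun t => by haveI := hμ t; exact measureReal_le_one
      Fm := ?_
      FD := ?_
      Fr := fun t ht => Set.indicator_of_notMem ht _
      ra := ?_
      rb := ?_
      rc := ?_
      rd := ?_ }
  · intro t ht
    show (μ t).real {lam} = 0
    rw [measureReal_def, ht.1]; rfl
  · intro t ht
    haveI := hμ t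
    rw [hDF t ht]
    exact (hL2 (μ t) lam ht).1
  · intro t hc hs
    rw [hsD t hc]
    rw [hsr t hc] at hs
    exact hRA (nch t) lam (μ t) (fun i => μ (sub t i)) (hμ t) (fun i => hμ _) (hrec' t) hc hs
  · intro t hc hs
    rw [hsr t hc] at hs ⊢
    rw [hsD t hc]
    obtain ⟨a1, a2, a3⟩ := hRB (nch t) lam (μ t) (fun i => μ (sub t i)) (hμ t) (fun i => hμ _)
      (hrec' t) hc hs
    exact ⟨a1, by rw [hrF t a1]; exact a2, by rw [hDF t a1]; exact a3⟩
  · intro t hc
    obtain ⟨a1, a2, a3⟩ := hRC (nch t) lam (μ t) (fun i => μ (sub t i)) (hμ t) (fun i => hμ _)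
      (hrec' t) hc
    exact ⟨a1, by rw [hrF t a1]; exact a2, by rw [hDF t a1]; exact a3⟩
  · intro t hc hs
    exact hRD (nch t) lam (μ t) (fun i => μ (sub t i)) (hμ t) (fun i => hμ _) (hrec' t) hc hs

lemma wn_congr {n n' : List ℕ → ℕ} (h : ∀ w, n w = n' w) (k : ℕ) (w : List ℕ) :
    wn n k w = wn n' k w := by
  have : n = n' := funext h
  rw [this]

/-- The theorem, from its ingredients. -/
theorem final (hDET : S_DET) (hWALK : S_WALK) (hMW : S_MW) (hL2 : S_L2) (hRA : S_RA) (hRB : S_RB)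
    (hRC : S_RC) (hRD : S_RD) (hMEAS : S_MEAS) (hWEI : S_WEI) (hLAW : S_LAW) (hCORE : S_CORE) :
  ∀ (P : PMF ℕ), P.support.Finite → P 0 = 0 → P 1 = 0 →
  ∀ (Ω : Type) [MeasureSpace Ω] [IsProbabilityMeasure (volume : Measure Ω)]
    (N : List ℕ → Ω → ℕ),
    (∀ w, Measurable (N w)) → iIndepFun N (volume : Measure Ω) →
    (∀ k : ℕ, (volume : Measure Ω) {ω | N [] ω = k} = P k) →
    (∀ w : List ℕ, w ≠ [] → ∀ k : ℕ,
      (volume : Measure Ω) {ω | N w ω = k}
        = ((k : ENNReal) + 1) * P (k + 1) / ∑' j : ℕ, (j : ENNReal) * P j) →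
    ∀ ν : Measure ℝ, IsProbabilityMeasure ν →
      (∃ R : ℝ, ν (Set.Icc (-R) R)ᶜ = 0) →
      (∀ k : ℕ, ∫ x, x ^ k ∂ν =
        ∫ ω, ((Set.ncard {f : Fin (k + 1) → List ℕ |
            f 0 = [] ∧ f (Fin.last k) = [] ∧
            (∀ i, ∀ j < (f i).length, (f i).getD j 0 < N ((f i).take j) ω) ∧
            ∀ i : Fin k, (∃ a : ℕ, f i.succ = f i.castSucc ++ [a]) ∨
                         (∃ a : ℕ, f i.castSucc = f i.succ ++ [a])} : ℕ) : ℝ)
          ∂(volume : Measure Ω)) →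
      {x : ℝ | ν {x} ≠ 0}.Finite := by
  intro P hP hP0 hP1 Ω _ _ N hN hind hroot hoff ν hν hsupp hmom
  obtain ⟨Δ, p, ph, hp, hph, mb, hSB, hle, hlaw⟩ := hLAW P hP hP0 hP1 Ω N hN hind hroot hoff
  obtain ⟨L, hL, hcore⟩ := hCORE Δ p ph mb hSB
  obtain ⟨R, μ, hμ, hμs, hμm, hμr⟩ := hDET Δ
  haveI := hν
  have hm : ∀ k : ℕ, Measurable (fun t => ∫ x, x ^ k ∂(μ t)) := by
    intro k
    simp_rw [hμm]
    exact (measurable_from_top (f := fun n : ℕ => (n : ℝ))).comp (hMW Δ k [])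
  obtain ⟨hmeas, hW⟩ := hWEI (Tr Δ) μ R hμ hμs hm
  have hcapm : Measurable (fun ω => fun w => cap Δ (N w ω)) := by
    refine measurable_pi_iff.mpr (fun w => ?_)
    exact (measurable_from_top (f := cap Δ)).comp (hN w)
  have hν' := hW (Q0 p ph) ν hsupp (by
    intro k
    rw [hmom k, ← hlaw, integral_map hcapm.aemeasurable]
    · refine integral_congr_ae ?_
      filter_upwards [hle] with ω hω
      rw [hμm, hWALK (fun w => N w ω) k]
      congr 1
      refine wn_congr (fun w => ?_) k []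
      show N w ω = ((cap Δ (N w ω) : Fin (Δ + 1)) : ℕ)
      simp [cap, hω w]
    · exact (hm k).aestronglyMeasurable)
  refine hL.subset ?_
  intro lam hlam
  by_contra hcon
  obtain ⟨r, D, F, hTyp⟩ := typ_of_family hL2 hRA hRB hRC hRD hMEAS Δ μ hμ hμr hmeas lam
  have h0 := hcore lam hcon _ r D F hTyp
  have h1 : ν.real {lam} = 0 := by
    rw [hν' lam]
    refine integral_eq_zero_of_ae ?_
    have : ∀ᵐ t ∂(Q0 p ph), ¬ 0 < (μ t).real {lam} := by
      rw [ae_iff]; simpa using h0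
    filter_upwards [this] with t ht
    exact le_antisymm (not_lt.mp ht) measureReal_nonneg
  apply hlam
  rw [measureReal_def, ENNReal.toReal_eq_zero_iff] at h1
  rcases h1 with h1 | h1
  · exact h1
  · exact absurd h1 (measure_ne_top _ _)

end Pool.Agent.Y782.UG
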