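import Pool.Agent.Y782.UG.Defs

set_option autoImplicit false

open MeasureTheory ProbabilityTheory Filter Topology
open scoped ENNReal BigOperators

namespace Pool.Agent.Y782.UG

/-! ## Operator side -/

open Classical in
/-- UG-OP: the adjacency operator on `ℓ²(List ℕ)`. -/
def S_OP : Prop :=
  ∀ (Δ : ℕ), ∃ R : ℝ, ∀ t : Tr Δ, ∃ A : H2 →L[ℂ] H2, IsSelfAdjoint A ∧ ‖A‖ ≤ R ∧
    ∀ (f : H2) (w : List ℕ), (A f) w =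
      if vx (off t) w then
        (if w = [] then 0 else f w.dropLast) + ∑ a ∈ Finset.range (off t w), f (w ++ [a])
      else 0

/-- UG-RESV: spectral measure and resolvent of a bounded selfadjoint operator. -/
def S_RESV : Prop :=
  ∀ (X : Type) [NormedAddCommGroup X] [InnerProductSpace ℂ X] [CompleteSpace X]
    (A : X →L[ℂ] X) (_ : IsSelfAdjoint A) (e : X) (_ : ‖e‖ = 1),
    ∃ μ : Measure ℝ, IsProbabilityMeasure μ ∧ μ (Set.Icc (-‖A‖) ‖A‖)ᶜ = 0 ∧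
      (∀ k : ℕ, ((∫ x, x ^ k ∂μ : ℝ) : ℂ) = inner ℂ e ((A ^ k) e)) ∧
      ∀ z : ℂ, 0 < z.im → (∃ f : X, A f - z • f = e) ∧
        (∀ f : X, A f - z • f = e → inner ℂ e f = G μ z) ∧ (∀ f : X, A f - z • f = 0 → f = 0)

/-- UG-DET: the family of spectral measures of the trees (UG-REC proves it from S_OP, S_RESV). -/
def S_DET : Prop :=
  ∀ (Δ : ℕ), ∃ (R : ℝ) (μ : Tr Δ → Measure ℝ), (∀ t, IsProbabilityMeasure (μ t)) ∧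
    (∀ t, μ t (Set.Icc (-R) R)ᶜ = 0) ∧
    (∀ t (k : ℕ), ∫ x, x ^ k ∂(μ t) = (wn (off t) k [] : ℝ)) ∧
    (∀ t (z : ℂ), 0 < z.im →
      G (μ t) z = -1 / (z + ∑ i ∈ Finset.range (nch t), G (μ (sub t i)) z))

/-- UG-WALK: the walk count of the frozen statement. -/
def S_WALK : Prop :=
  ∀ (n : List ℕ → ℕ) (k : ℕ),
    Set.ncard {f : Fin (k + 1) → List ℕ |
            f 0 = [] ∧ f (Fin.last k) = [] ∧
            (∀ i, ∀ j < (f i).length, (f i).getD j 0 < n ((f i).take j)) ∧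
            ∀ i : Fin k, (∃ a : ℕ, f i.succ = f i.castSucc ++ [a]) ∨
                         (∃ a : ℕ, f i.castSucc = f i.succ ++ [a])} = wn n k []

/-- UG-MW: measurability of the walk counts. -/
def S_MW : Prop :=
  ∀ (Δ : ℕ) (k : ℕ) (w : List ℕ), Measurable (fun t : Tr Δ => wn (off t) k w)

/-! ## Stieltjes transforms near a real point -/

/-- UG-L1 -/
def S_L1 : Prop :=
  ∀ (μ : Measure ℝ) [IsProbabilityMeasure μ] (lam : ℝ),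
    Tendsto (fun ε : ℝ => (ε : ℂ) * G μ (pt lam ε)) (𝓝[>] 0) (𝓝 (((μ.real {lam} : ℝ) : ℂ) * Complex.I))

/-- UG-L2 -/
def S_L2 : Prop :=
  ∀ (μ : Measure ℝ) [IsProbabilityMeasure μ] (lam : ℝ), fin lam μ →
    0 < DD lam μ ∧
    Tendsto (fun ε : ℝ => G μ (pt lam ε)) (𝓝[>] 0) (𝓝 ((rr lam μ : ℝ) : ℂ)) ∧
    Tendsto (fun ε : ℝ => (G μ (pt lam ε) - ((rr lam μ : ℝ) : ℂ)) / (ε : ℂ)) (𝓝[>] 0)
      (𝓝 (((DD lam μ : ℝ) : ℂ) * Complex.I))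

/-- UG-L3 -/
def S_L3 : Prop :=
  ∀ (μ : Measure ℝ) [IsProbabilityMeasure μ] (lam : ℝ), μ {lam} = 0 → ¬ fin lam μ →
    Tendsto (fun ε : ℝ => (G μ (pt lam ε)).im / ε) (𝓝[>] 0) atTop ∧
    Tendsto (fun ε : ℝ => (G μ (pt lam ε)).re ^ 2 / ((G μ (pt lam ε)).im / ε)) (𝓝[>] 0) (𝓝 0)

/-- UG-L4 -/
def S_L4 : Prop :=
  ∀ (μ : Measure ℝ) [IsProbabilityMeasure μ] (lam C : ℝ),
    (∃ᶠ ε in 𝓝[>] (0 : ℝ), (G μ (pt lam ε)).im / ε ≤ C) → fin lam μ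

/-- rule (a) -/
def S_RA : Prop :=
  ∀ (n : ℕ) (lam : ℝ) (μ : Measure ℝ) (ν : ℕ → Measure ℝ), IsProbabilityMeasure μ →
    (∀ i, IsProbabilityMeasure (ν i)) →
    (∀ ε : ℝ, 0 < ε → G μ (pt lam ε) = -1 / (pt lam ε + ∑ i ∈ Finset.range n, G (ν i) (pt lam ε))) →
    (∀ i < n, fin lam (ν i)) → lam + ∑ i ∈ Finset.range n, rr lam (ν i) = 0 →
    μ.real {lam} = 1 / (1 + ∑ i ∈ Finset.range n, DD lam (ν i))

/-- rule (b) -/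
def S_RB : Prop :=
  ∀ (n : ℕ) (lam : ℝ) (μ : Measure ℝ) (ν : ℕ → Measure ℝ), IsProbabilityMeasure μ →
    (∀ i, IsProbabilityMeasure (ν i)) →
    (∀ ε : ℝ, 0 < ε → G μ (pt lam ε) = -1 / (pt lam ε + ∑ i ∈ Finset.range n, G (ν i) (pt lam ε))) →
    (∀ i < n, fin lam (ν i)) → lam + ∑ i ∈ Finset.range n, rr lam (ν i) ≠ 0 →
    fin lam μ ∧ rr lam μ = -1 / (lam + ∑ i ∈ Finset.range n, rr lam (ν i)) ∧
      DD lam μ = (1 + ∑ i ∈ Finset.range n, DD lam (ν i)) /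
        (lam + ∑ i ∈ Finset.range n, rr lam (ν i)) ^ 2

/-- rule (c) -/
def S_RC : Prop :=
  ∀ (n : ℕ) (lam : ℝ) (μ : Measure ℝ) (ν : ℕ → Measure ℝ), IsProbabilityMeasure μ →
    (∀ i, IsProbabilityMeasure (ν i)) →
    (∀ ε : ℝ, 0 < ε → G μ (pt lam ε) = -1 / (pt lam ε + ∑ i ∈ Finset.range n, G (ν i) (pt lam ε))) →
    (∃ i < n, 0 < (ν i).real {lam}) →
    fin lam μ ∧ rr lam μ = 0 ∧ DD lam μ = 1 / ∑ i ∈ Finset.range n, (ν i).real {lam}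

/-- rule (d) -/
def S_RD : Prop :=
  ∀ (n : ℕ) (lam : ℝ) (μ : Measure ℝ) (ν : ℕ → Measure ℝ), IsProbabilityMeasure μ →
    (∀ i, IsProbabilityMeasure (ν i)) →
    (∀ ε : ℝ, 0 < ε → G μ (pt lam ε) = -1 / (pt lam ε + ∑ i ∈ Finset.range n, G (ν i) (pt lam ε))) →
    (∀ i < n, (ν i).real {lam} = 0) → (∃ i < n, ¬ fin lam (ν i)) →
    ¬ fin lam μ ∧ μ.real {lam} = 0

/-- UG-MEAS -/
def S_MEAS : Prop :=
  ∀ (Ω : Type) [MeasurableSpace Ω] (μ : Ω → Measure ℝ), (∀ t, IsProbabilityMeasure (μ t)) →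
    (∀ f : ℝ → ℝ, Continuous f → (∃ C, ∀ x, |f x| ≤ C) → Measurable (fun t => ∫ x, f x ∂(μ t))) →
    ∀ lam : ℝ, Measurable (fun t => (μ t).real {lam}) ∧ MeasurableSet {t | fin lam (μ t)} ∧
      (∃ g : Ω → ℝ, Measurable g ∧ ∀ t, fin lam (μ t) → g t = rr lam (μ t)) ∧
      (∃ g : Ω → ℝ, Measurable g ∧ ∀ t, fin lam (μ t) → g t = DD lam (μ t))

/-- UG-WEI: Weierstrass approximation. -/
def S_WEI : Prop :=
  ∀ (Ω : Type) [MeasurableSpace Ω] (μ : Ω → Measure ℝ) (R : ℝ), (∀ t, IsProbabilityMeasure (μ t)) →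
    (∀ t, μ t (Set.Icc (-R) R)ᶜ = 0) → (∀ k : ℕ, Measurable (fun t => ∫ x, x ^ k ∂(μ t))) →
    (∀ f : ℝ → ℝ, Continuous f → (∃ C, ∀ x, |f x| ≤ C) → Measurable (fun t => ∫ x, f x ∂(μ t))) ∧
    ∀ (P : Measure Ω) [IsProbabilityMeasure P] (ν : Measure ℝ) [IsProbabilityMeasure ν],
      (∃ R' : ℝ, ν (Set.Icc (-R') R')ᶜ = 0) →
      (∀ k : ℕ, ∫ x, x ^ k ∂ν = ∫ t, (∫ x, x ^ k ∂(μ t)) ∂P) →
      ∀ lam : ℝ, ν.real {lam} = ∫ t, (μ t).real {lam} ∂P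

/-! ## Probability side -/

/-- UG-DEC -/
def S_DEC : Prop :=
  ∀ (Δ : ℕ) (p ph : Measure (Fin (Δ + 1))) [IsProbabilityMeasure p] [IsProbabilityMeasure ph],
    Measure.infinitePi (lw p ph) = Q0 p ph ∧ Q0 ph ph = Q ph

/-- the offspring number cut at `Δ` -/
def cap (Δ : ℕ) (k : ℕ) : Fin (Δ + 1) := ⟨min k Δ, Nat.lt_succ_of_le (min_le_right _ _)⟩

/-- UG-LAW -/
def S_LAW : Prop :=
  ∀ (P : PMF ℕ), P.support.Finite → P 0 = 0 → P 1 = 0 →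
  ∀ (Ω : Type) [MeasureSpace Ω] [IsProbabilityMeasure (volume : Measure Ω)]
    (N : List ℕ → Ω → ℕ),
    (∀ w, Measurable (N w)) → iIndepFun N (volume : Measure Ω) →
    (∀ k : ℕ, (volume : Measure Ω) {ω | N [] ω = k} = P k) →
    (∀ w : List ℕ, w ≠ [] → ∀ k : ℕ,
      (volume : Measure Ω) {ω | N w ω = k}
        = ((k : ENNReal) + 1) * P (k + 1) / ∑' j : ℕ, (j : ENNReal) * P j) →
    ∃ (Δ : ℕ) (p ph : Measure (Fin (Δ + 1))) (_ : IsProbabilityMeasure p)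
      (_ : IsProbabilityMeasure ph) (mb : ℝ≥0∞), SB p ph mb ∧
      (∀ᵐ ω ∂(volume : Measure Ω), ∀ w, N w ω ≤ Δ) ∧
      Measure.map (fun ω => fun w => cap Δ (N w ω)) (volume : Measure Ω) = Q0 p ph

/-- UG-TR: the edge transport identity. -/
def S_TR : Prop :=
  ∀ (Δ : ℕ) (p ph : Measure (Fin (Δ + 1))) [IsProbabilityMeasure p] [IsProbabilityMeasure ph]
    (mb : ℝ≥0∞), SB p ph mb → TR p ph mb

section core

/-- UG-T1A: mass identity (all blocks). -/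
def S_T1A : Prop :=
  ∀ (Δ : ℕ) (p ph : Measure (Fin (Δ + 1))) [IsProbabilityMeasure p] [IsProbabilityMeasure ph]
    (mb : ℝ≥0∞), TR p ph mb →
    ∀ (lam : ℝ) (m r D : Tr Δ → ℝ) (F : Set (Tr Δ)), Typ Δ lam m r D F →
      2 * Q0 p ph (Two m) + ∫⁻ t in Bk lam r F, (dg r t : ℝ≥0∞) ∂(Q0 p ph)
        ≤ 2 * Q0 p ph (Bk lam r F)

/-- UG-T1I: mass identity (infinite blocks). -/
def S_T1I : Prop :=
  ∀ (Δ : ℕ) (p ph : Measure (Fin (Δ + 1))) [IsProbabilityMeasure p] [IsProbabilityMeasure ph]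
    (mb : ℝ≥0∞), TR p ph mb →
    ∀ (lam : ℝ) (m r D : Tr Δ → ℝ) (F : Set (Tr Δ)), Typ Δ lam m r D F →
      2 * ∫⁻ t in Bk lam r F ∩ {t | size r t = ⊤}, ENNReal.ofReal (m t) ∂(Q0 p ph) +
        ∫⁻ t in Bk lam r F ∩ {t | size r t = ⊤}, (dg r t : ℝ≥0∞) ∂(Q0 p ph)
        ≤ 2 * Q0 p ph (Bk lam r F ∩ {t | size r t = ⊤})

/-- UG-T2: finite blocks. -/
def S_T2 : Prop :=
  ∀ (Δ : ℕ) (p ph : Measure (Fin (Δ + 1))) [IsProbabilityMeasure p] [IsProbabilityMeasure ph]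
    (mb : ℝ≥0∞), TR p ph mb →
    ∀ (lam : ℝ) (m r D : Tr Δ → ℝ) (F : Set (Tr Δ)), Typ Δ lam m r D F →
      2 * Q0 p ph (Bk lam r F ∩ {t | size r t ≠ ⊤})
        ≤ 2 * ∫⁻ t in Bk lam r F ∩ {t | size r t ≠ ⊤}, ((size r t : ℕ∞) : ℝ≥0∞)⁻¹ ∂(Q0 p ph) +
          ∫⁻ t in Bk lam r F ∩ {t | size r t ≠ ⊤}, (dg r t : ℝ≥0∞) ∂(Q0 p ph)

/-- UG-T3: infinite blocks. -/
def S_T3 : Prop :=
  ∀ (Δ : ℕ) (p ph : Measure (Fin (Δ + 1))) [IsProbabilityMeasure p] [IsProbabilityMeasure ph]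
    (mb : ℝ≥0∞), TR p ph mb →
    ∀ (lam : ℝ) (m r D : Tr Δ → ℝ) (F : Set (Tr Δ)), Typ Δ lam m r D F →
      2 * Q0 p ph (Bk lam r F ∩ {t | size r t = ⊤})
        ≤ ∫⁻ t in Bk lam r F ∩ {t | size r t = ⊤}, (dg r t : ℝ≥0∞) ∂(Q0 p ph)

/-- UG-X2 -/
def S_X2 : Prop :=
  ∀ (Δ : ℕ) (p ph : Measure (Fin (Δ + 1))) [IsProbabilityMeasure p] [IsProbabilityMeasure ph]
    (mb : ℝ≥0∞), SB p ph mb → ∀ (m : Tr Δ → ℝ), Measurable m →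
      (Q ph {u | 0 < m u}) ^ 2 ≤ Q0 p ph (Two m)

/-- UG-XI: infinite clusters below mass carrying roots. -/
def S_XI : Prop :=
  ∀ (Δ : ℕ) (p ph : Measure (Fin (Δ + 1))) [IsProbabilityMeasure p] [IsProbabilityMeasure ph]
    (mb : ℝ≥0∞), SB p ph mb → TR p ph mb →
    ∀ (lam : ℝ) (m r D : Tr Δ → ℝ) (F : Set (Tr Δ)), Typ Δ lam m r D F →
      Q0 p ph (Bk lam r F ∩ {t | size r t = ⊤}) = 0 →
      Q ph {u | 0 < m u ∧ size r u = ⊤} = 0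

/-- UG-U: finite clusters are small. -/
def S_U : Prop :=
  ∀ (Δ : ℕ) (ph : Measure (Fin (Δ + 1))) [IsProbabilityMeasure ph],
    ph {k | (k : ℕ) < 1} = 0 → ph {k | (k : ℕ) ≠ 1} ≠ 0 →
    ∃ (ζ θ x0 : ℝ), 1 < ζ ∧ 0 < θ ∧ 0 < x0 ∧
    ∀ (lam : ℝ) (m r D : Tr Δ → ℝ) (F : Set (Tr Δ)), Typ Δ lam m r D F →
      Q ph {u | 0 < m u} ≤ ENNReal.ofReal x0 →
      ∀ K : ℕ, ENNReal.ofReal (ζ ^ K) * Q ph {u | 0 < m u ∧ (K : ℕ∞) ≤ size r u ∧ size r u ≠ ⊤}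
        ≤ ENNReal.ofReal θ * Q ph {u | 0 < m u}

/-- UG-U0 -/
def S_U0 : Prop :=
  ∀ (Δ : ℕ) (p ph : Measure (Fin (Δ + 1))) [IsProbabilityMeasure p] [IsProbabilityMeasure ph]
    (mb : ℝ≥0∞), SB p ph mb →
    ∀ (lam : ℝ) (m r D : Tr Δ → ℝ) (F : Set (Tr Δ)), Typ Δ lam m r D F →
      Q ph {u | 0 < m u} = 0 →
      Q0 p ph (Bk lam r F ∩ {t | size r t ≠ ⊤}) = 0

/-- UG-FS: finitely many energies carry small blocks. -/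
def S_FS : Prop :=
  ∀ (Δ n : ℕ), {lam : ℝ | ∃ (m r D : Tr Δ → ℝ) (F : Set (Tr Δ)), Typ Δ lam m r D F ∧
    ∃ t ∈ Bk lam r F, size r t ≤ (n : ℕ∞)}.Finite

/-- UG-Q1: the line. -/
def S_Q1 : Prop :=
  ∀ (Δ : ℕ) (ph : Measure (Fin (Δ + 1))) [IsProbabilityMeasure ph],
    ph {k | (k : ℕ) < 1} = 0 → ph {k | (k : ℕ) ≠ 1} = 0 →
    ∀ (lam : ℝ) (m r D : Tr Δ → ℝ) (F : Set (Tr Δ)), Typ Δ lam m r D F →
      Q ph {u | 0 < m u} = 0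

/-- core theorem -/
def S_CORE : Prop :=
  ∀ (Δ : ℕ) (p ph : Measure (Fin (Δ + 1))) [IsProbabilityMeasure p] [IsProbabilityMeasure ph]
    (mb : ℝ≥0∞), SB p ph mb → ∃ L : Set ℝ, L.Finite ∧ ∀ lam ∉ L,
    ∀ (m r D : Tr Δ → ℝ) (F : Set (Tr Δ)), Typ Δ lam m r D F → Q0 p ph {t | 0 < m t} = 0

end core

end Pool.Agent.Y782.UG
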